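import Pool.Agent.H466.HP.Stm2
import Pool.Graph.R_seed8.W169.HF.Asm

/-!
# de Bruijn's strip for the heat flow of the Riemann xi function
-/

set_option autoImplicit false

open Complex MeasureTheory Filter Topology Set Metric
open scoped ComplexConjugate

namespace Pool.Agent.H113.HP

open Pool.Agent.H466.HF Pool.Agent.H466.LD Pool.Agent.H466.HP

lemma xi_LL (s : ℂ) : xi s = LL gk 0 (s - 1 / 2) := by
  rw [LL_gk_xi]
  congr 1
  ring

lemma LL_slow (δ : ℝ) (hδ : 0 < δ) :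
    ∃ K : ℝ, 0 ≤ K ∧ ∀ z : ℂ, ‖LL gk 0 z‖ ≤ K * Real.exp (δ * ‖z‖ ^ 2) := by
  obtain ⟨A, k⟩ := gk_kern
  obtain ⟨K, hK, h⟩ := k.term 0 (1 / (4 * δ))
  refine ⟨∫ u : ℝ, K * Real.exp (-1 * u ^ 2), integral_nonneg fun u => by positivity,
    fun z => ?_⟩
  rw [← integral_mul_const]
  unfold LL
  refine norm_integral_le_of_norm_le ((gauss_int.const_mul K).mul_const _)
    (Eventually.of_forall fun u => ?_)
  rw [norm_mul]
  have h1 : Real.exp (|z.re| * |u| + 0 * u ^ 2) ≤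
      Real.exp (0 * |u| + 1 / (4 * δ) * u ^ 2) * Real.exp (δ * ‖z‖ ^ 2) := by
    rw [← Real.exp_add]
    apply Real.exp_le_exp.mpr
    have h2 : |z.re| * |u| ≤ ‖z‖ * |u| :=
      mul_le_mul_of_nonneg_right (Complex.abs_re_le_norm z) (abs_nonneg u)
    have h3 : ‖z‖ * |u| ≤ 1 / (4 * δ) * u ^ 2 + δ * ‖z‖ ^ 2 := by
      have h4 : 0 ≤ (|u| / (2 * δ) - ‖z‖) ^ 2 * δ := by positivity
      have h5 : (|u| / (2 * δ) - ‖z‖) ^ 2 * δ = 1 / (4 * δ) * |u| ^ 2 - ‖z‖ * |u| + δ * ‖z‖ ^ 2 := by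
        field_simp
        ring
      rw [h5, sq_abs] at h4
      linarith
    linarith
  calc ‖gk u‖ * ‖cexp (((0 : ℝ) : ℂ) * (u : ℂ) ^ 2 + z * u)‖
      ≤ ‖gk u‖ * (Real.exp (0 * |u| + 1 / (4 * δ) * u ^ 2) * Real.exp (δ * ‖z‖ ^ 2)) :=
        mul_le_mul_of_nonneg_left ((norm_exp_le 0 z u).trans h1) (norm_nonneg _)
    _ = (‖gk u‖ * Real.exp (0 * |u| + 1 / (4 * δ) * u ^ 2)) * Real.exp (δ * ‖z‖ ^ 2) := by ring
    _ ≤ (K * Real.exp (-1 * u ^ 2)) * Real.exp (δ * ‖z‖ ^ 2) :=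
        mul_le_mul_of_nonneg_right (h u) (Real.exp_pos _).le

lemma xi_slow : Pool.Agent.W169.HF.Slow xi := by
  refine ⟨xi_diff, fun δ hδ => ?_⟩
  obtain ⟨K, hK, h⟩ := LL_slow (δ / 2) (by positivity)
  refine ⟨(K + 1) * Real.exp (δ / 4), by positivity, fun s => ?_⟩
  rw [xi_LL]
  refine (h _).trans ?_
  have h1 : ‖s - 1 / 2‖ ^ 2 ≤ 2 * ‖s‖ ^ 2 + 1 / 2 := by
    have h2 : ‖s - 1 / 2‖ ≤ ‖s‖ + 1 / 2 := by
      refine (norm_sub_le _ _).trans ?_
      have : ‖(1 / 2 : ℂ)‖ = 1 / 2 := by simp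
      rw [this]
    have h3 := norm_nonneg (s - 1 / 2)
    have h4 : ‖s - 1 / 2‖ ^ 2 ≤ (‖s‖ + 1 / 2) ^ 2 := pow_le_pow_left₀ h3 h2 2
    nlinarith [sq_nonneg (‖s‖ - 1 / 2)]
  have h2 : Real.exp (δ / 2 * ‖s - 1 / 2‖ ^ 2) ≤ Real.exp (δ / 4) * Real.exp (δ * ‖s‖ ^ 2) := by
    rw [← Real.exp_add]
    apply Real.exp_le_exp.mpr
    have := mul_le_mul_of_nonneg_left h1 (by positivity : 0 ≤ δ / 2)
    linarith
  calc K * Real.exp (δ / 2 * ‖s - 1 / 2‖ ^ 2)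
      ≤ (K + 1) * (Real.exp (δ / 4) * Real.exp (δ * ‖s‖ ^ 2)) :=
        mul_le_mul (by linarith) h2 (Real.exp_pos _).le (by linarith)
    _ = _ := by ring

lemma xi_fe (s : ℂ) : xi s = 1 * conj (xi (1 - conj s)) := by
  rw [one_mul, xi_LL, xi_LL (1 - conj s)]
  have e : (1 - conj s - 1 / 2 : ℂ) = -conj (s - 1 / 2) := by
    rw [map_sub]
    have : conj (1 / 2 : ℂ) = 1 / 2 := by
      rw [map_div₀, map_one, map_ofNat]
    rw [this]
    ring
  rw [e, LL_gk_fe, conj_conj]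

lemma xi_ne {s : ℂ} (hs : 1 < s.re) : xi s ≠ 0 := by
  have h0 : s ≠ 0 := by
    rintro rfl
    simp at hs
    linarith
  have h1 : s ≠ 1 := by
    rintro rfl
    simp at hs
  have h2 : riemannZeta s ≠ 0 := riemannZeta_ne_zero_of_one_lt_re hs
  rw [xi_eq h0 h1]
  have h3 : completedRiemannZeta s ≠ 0 := by
    intro h
    rw [riemannZeta_def_of_ne_zero h0, h, zero_div] at h2
    exact h2 rfl
  have h4 : s - 1 ≠ 0 := sub_ne_zero.mpr h1
  exact mul_ne_zero (mul_ne_zero (mul_ne_zero (by norm_num) h0) h4) h3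

lemma xi_cl : Pool.Agent.W169.HF.Cl (1 / 2) xi := by
  refine ⟨xi_slow, ⟨1, norm_one, xi_fe⟩, fun s hs => ?_⟩
  by_contra h
  exact xi_ne (s := s) (by linarith) hs

lemma heat_xi {lam : ℝ} (hlam : 0 < lam) (s : ℂ) :
    Pool.Agent.W169.HF.heat lam xi s = xiHeat lam s := by
  unfold Pool.Agent.W169.HF.heat xiHeat
  have hs : 0 < 2 * Real.sqrt lam := by
    have := Real.sqrt_pos.mpr hlam
    positivity
  have key := Measure.integral_comp_mul_left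
    (fun v : ℝ => xi (s + v) * (Real.exp (-v ^ 2 / (4 * lam)) : ℂ)) (2 * Real.sqrt lam)
  have e1 : (∫ v : ℝ, xi (s + ((2 * Real.sqrt lam * v : ℝ) : ℂ)) *
      (Real.exp (-(2 * Real.sqrt lam * v) ^ 2 / (4 * lam)) : ℂ)) =
      ∫ v : ℝ, ((Real.exp (-v ^ 2) : ℝ) : ℂ) * xi (s + ((2 * Real.sqrt lam * v : ℝ) : ℂ)) := by
    refine integral_congr_ae (Eventually.of_forall fun v => ?_)
    simp only
    rw [mul_comm]
    congr 3
    have h2 : Real.sqrt lam ^ 2 = lam := Real.sq_sqrt hlam.le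
    rw [mul_pow, mul_pow, h2]
    field_simp
    ring
  rw [← e1]
  rw [key, abs_of_pos (inv_pos.mpr hs), Complex.real_smul, ← mul_assoc, ← ofReal_mul]
  congr 2
  have h3 : Real.sqrt (4 * Real.pi * lam) = 2 * Real.sqrt lam * Real.sqrt Real.pi := by
    have : 4 * Real.pi * lam = (2 * Real.sqrt lam * Real.sqrt Real.pi) ^ 2 := by
      rw [mul_pow, mul_pow, Real.sq_sqrt hlam.le, Real.sq_sqrt Real.pi_pos.le]
      ring
    rw [this, Real.sqrt_sq (by positivity)]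
  rw [h3]
  have h4 : Real.sqrt Real.pi ≠ 0 := (Real.sqrt_pos.mpr Real.pi_pos).ne'
  field_simp

/-- de Bruijn's strip -/
theorem strip : S_STRIP := by
  intro lam z hlam hz
  have hne : ∃ z, xi z ≠ 0 := ⟨2, xi_ne (by norm_num)⟩
  obtain ⟨-, hcl⟩ := Pool.Agent.W169.HF.db_all (1 / 2) xi xi_cl hne lam hlam.le
  have hzero : ∀ w : ℂ, LL gk lam w = 0 → w.re ≤ 1 / 2 := by
    intro w hw
    have h1 : Pool.Agent.W169.HF.heat lam xi (w + 1 / 2) = 0 := by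
      rw [heat_xi hlam, xiHeat_eq hlam, add_sub_cancel_right]
      exact hw
    have h2 := hcl.zer _ h1
    have h3 : (w + 1 / 2 : ℂ).re = w.re + 1 / 2 := by simp
    rw [h3] at h2
    linarith
  have h1 := hzero z hz
  have h3 : Pool.Agent.W169.HF.heat lam xi (z + 1 / 2) = 0 := by
    rw [heat_xi hlam, xiHeat_eq hlam, add_sub_cancel_right]
    exact hz
  obtain ⟨ε, hε, hfe⟩ := hcl.fe
  have h4 : Pool.Agent.W169.HF.heat lam xi (1 - conj (z + 1 / 2)) = 0 := by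
    have e : (1 - conj (1 - conj (z + 1 / 2)) : ℂ) = z + 1 / 2 := by
      rw [map_sub, conj_conj, map_one]
      ring
    rw [hfe, e, h3, map_zero, mul_zero]
  have h5 := hcl.zer _ h4
  have h6 : (1 - conj (z + 1 / 2) : ℂ).re = 1 - (z.re + 1 / 2) := by
    rw [sub_re, conj_re, add_re, one_re]
    norm_num
  rw [h6] at h5
  exact abs_le.mpr ⟨by linarith, h1⟩

end Pool.Agent.H113.HP
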